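import Pool.Agent.DPFib.Final

/-!
# MP_9669a9_ag: Q1 is false

For suitable `(ν,ζ)` on the curve `(1+ν)^2 (1+ζ)^2 = ν ζ` the threefold `X = Xhat ν ζ / (ℂ*)^5`
with the fibration `z ↦ (e t : g s)` is a smooth projective threefold fibred in del Pezzo surfaces
of degree four (structure `Geometry`).  It is the blow up of the threefold `s t w^2 = B(u,v)`,
`B(u,v) = (u0+u1)^2 (v0+v1)^2 - u0 u1 v0 v1`, in one ruling line of each of the two singular
fibres `t = 0` and `s = 0` (which are cones over the elliptic curve `B = 0`), and has four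
intersection profiles.  There is no number `κ ≠ 0`, in particular not `κ = |Br X|`, that equals the
number of dominant families of sections for all profiles and all classes in a translate of the
nef cone.
-/

namespace Pool.Agent.Results.MP_9669a9_ag.Disproof

open Pool.Agent.DPFib

theorem result : ∃ ν ζ : ℂ, (1 + ν) ^ 2 * (1 + ζ) ^ 2 = ν * ζ ∧ Geometry ν ζ ∧
    ∀ κ : Cardinal.{0}, κ ≠ 0 → ¬ Q1 ν ζ κ := by
  obtain ⟨ν, ζ, h, h0, h1, h2, h3, h4, h5, h6⟩ := Q1_false
  exact ⟨ν, ζ, h, geometry h h0 h1 h2 h3 h4 h5, h6⟩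

end Pool.Agent.Results.MP_9669a9_ag.Disproof
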